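import Mathlib

set_option autoImplicit false

namespace Pool.Agent.Helper873.Birch

/-- `S` can be coloured with `m` colours so that the hulls of `t` of the colour classes each meet the
hulls of all `m` colour classes (a `t`-good partition of `S` into `m` classes). -/
def TGood {d : ℕ} (S : Finset (EuclideanSpace ℝ (Fin d))) (m t : ℕ) : Prop :=
  ∃ c : EuclideanSpace ℝ (Fin d) → Fin m, ∃ T : Finset (Fin m), T.card = t ∧
    ∀ i ∈ T, ∀ j : Fin m,
      (convexHull ℝ {x : EuclideanSpace ℝ (Fin d) | x ∈ S ∧ c x = i} ∩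
       convexHull ℝ {x : EuclideanSpace ℝ (Fin d) | x ∈ S ∧ c x = j}).Nonempty

end Pool.Agent.Helper873.Birch
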