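import Mathlib
import Pool.Agent.Helper873.Birch.Defs

set_option autoImplicit false

open Module

namespace Pool.Agent.Helper873.Birch

variable {n : ℕ}

-- TARGET (prove this)
theorem exists_unused {W : Type*} [NormedAddCommGroup W] [InnerProductSpace ℝ W]
    [FiniteDimensional ℝ W] {ι : Type*} [Fintype ι] (u : ι → W) (y : W) (hy : y ≠ 0)
    (hcard : finrank ℝ W + 1 ≤ Fintype.card ι)
    (hyK : y ∈ convexHull ℝ (Set.range u))
    (hmin : ∀ i, ‖y‖ ^ 2 ≤ inner ℝ y (u i)) :
    ∃ i₀ : ι, y ∈ convexHull ℝ (u '' {i | i ≠ i₀}) := by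
  obtain ⟨κ, _, z, w, hz, haff, hw, hw1, hwy⟩ := eq_pos_convex_span_of_mem_convexHull hyK
  have hg' : ∀ k, ∃ i, u i = z k := fun k => hz (Set.mem_range_self k)
  choose g hg using hg'
  have hge : ∀ k, ‖y‖ ^ 2 ≤ inner ℝ y (z k) := fun k => by
    rw [← hg k]
    exact hmin _
  have hsum : ∑ k, w k * (inner ℝ y (z k) - ‖y‖ ^ 2) = 0 := by
    have h1 : ∑ k, w k * inner ℝ y (z k) = ‖y‖ ^ 2 := by
      calc ∑ k, w k * inner ℝ y (z k) = inner ℝ y (∑ k, w k • z k) := by
            rw [inner_sum]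
            exact Finset.sum_congr rfl fun k _ => (inner_smul_right _ _ _).symm
        _ = ‖y‖ ^ 2 := by rw [hwy, real_inner_self_eq_norm_sq]
    simp only [mul_sub]
    rw [Finset.sum_sub_distrib, h1, ← Finset.sum_mul, hw1]
    ring
  have heq : ∀ k, inner ℝ y (z k) = ‖y‖ ^ 2 := by
    intro k
    have h := (Finset.sum_eq_zero_iff_of_nonneg (fun k _ =>
      mul_nonneg (hw k).le (sub_nonneg.2 (hge k)))).1 hsum k (Finset.mem_univ k)
    rcases mul_eq_zero.1 h with h | h
    · exact absurd h (hw k).ne'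
    · linarith
  have hle : vectorSpan ℝ (Set.range z) ≤ (Submodule.span ℝ {y})ᗮ := by
    rw [vectorSpan_def, Submodule.span_le]
    rintro _ ⟨_, ⟨i, rfl⟩, _, ⟨j, rfl⟩, rfl⟩
    show z i -ᵥ z j ∈ (Submodule.span ℝ {y})ᗮ
    rw [Submodule.mem_orthogonal_singleton_iff_inner_right, vsub_eq_sub, inner_sub_right,
      heq i, heq j, sub_self]
  have hfr : finrank ℝ (Submodule.span ℝ {y})ᗮ + 1 = finrank ℝ W := by
    have h1 := Submodule.finrank_add_finrank_orthogonal (Submodule.span ℝ {y})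
    rw [finrank_span_singleton hy] at h1
    omega
  have hκ : Fintype.card κ ≤ finrank ℝ W := by
    have h1 := haff.card_le_finrank_succ
    have h2 := Submodule.finrank_mono hle
    omega
  have hns : ¬ Function.Surjective g := by
    intro hs
    have := Fintype.card_le_of_surjective g hs
    omega
  unfold Function.Surjective at hns
  push Not at hns
  obtain ⟨i₀, hi₀⟩ := hns
  refine ⟨i₀, ?_⟩
  rw [← hwy]
  refine (convex_convexHull ℝ _).sum_mem (fun k _ => (hw k).le) hw1 (fun k _ => ?_)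
  exact subset_convexHull ℝ _ ⟨g k, hi₀ k, hg k⟩

theorem col_car_aux {W : Type*} [NormedAddCommGroup W] [InnerProductSpace ℝ W] (a b : W)
    (h : inner ℝ a (b - a) < 0) : ∃ s : ℝ, 0 ≤ s ∧ s ≤ 1 ∧ ‖a + s • (b - a)‖ < ‖a‖ := by
  set p : ℝ := - inner ℝ a (b - a) with hp
  have hp0 : 0 < p := by linarith
  set q : ℝ := ‖b - a‖ ^ 2 with hq
  have hq0 : 0 ≤ q := by positivity
  set s : ℝ := min 1 (p / (q + 1)) with hs
  have hs0 : 0 < s := lt_min one_pos (by positivity)
  have hs1 : s ≤ 1 := min_le_left _ _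
  have hs2 : s * (q + 1) ≤ p := by
    rw [← le_div_iff₀ (by positivity)]
    exact min_le_right _ _
  refine ⟨s, hs0.le, hs1, ?_⟩
  have e : ‖a + s • (b - a)‖ ^ 2 = ‖a‖ ^ 2 - 2 * s * p + s ^ 2 * q := by
    rw [norm_add_sq_real, inner_smul_right, norm_smul, Real.norm_of_nonneg hs0.le, mul_pow, hp, hq]
    ring
  have h2 : ‖a + s • (b - a)‖ ^ 2 < ‖a‖ ^ 2 := by
    rw [e]
    nlinarith
  exact lt_of_pow_lt_pow_left₀ 2 (norm_nonneg _) h2

theorem col_car_inner {W : Type*} [NormedAddCommGroup W] [InnerProductSpace ℝ W]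
    [FiniteDimensional ℝ W] {ι κ : Type*} [Fintype ι] [Finite κ] (w : ι → κ → W)
    (hcard : finrank ℝ W + 1 ≤ Fintype.card ι)
    (h0 : ∀ i, (0 : W) ∈ convexHull ℝ (Set.range (w i))) :
    ∃ c : ι → κ, (0 : W) ∈ convexHull ℝ (Set.range fun i => w i (c i)) := by
  classical
  have hι : Nonempty ι := by
    rw [← Fintype.card_pos_iff]
    omega
  obtain ⟨i1⟩ := hι
  have hκ : Nonempty κ := by
    by_contra hne
    rw [not_nonempty_iff] at hne
    have := h0 i1
    rw [Set.range_eq_empty, convexHull_empty] at this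
    exact this
  have := Fintype.ofFinite κ
  let K : (ι → κ) → Set W := fun c => convexHull ℝ (Set.range fun i => w i (c i))
  have hKmem : ∀ c i, w i (c i) ∈ K c := fun c i => subset_convexHull ℝ _ ⟨i, rfl⟩
  have hKc : ∀ c, ∃ y ∈ K c, ∀ x ∈ K c, ‖y‖ ≤ ‖x‖ := by
    intro c
    have hcomp : IsCompact (K c) := (Set.finite_range _).isCompact_convexHull ℝ
    obtain ⟨y, hy, hmin⟩ := hcomp.exists_isMinOn ⟨_, hKmem c i1⟩ (continuous_norm.continuousOn)
    exact ⟨y, hy, fun x hx => hmin hx⟩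
  choose Y hYK hYmin using hKc
  obtain ⟨c, hc⟩ := Finite.exists_min (fun c : ι → κ => ‖Y c‖)
  refine ⟨c, ?_⟩
  by_cases hy0 : Y c = 0
  · have := hYK c
    rw [hy0] at this
    exact this
  exfalso
  have hseg : ∀ (c' : ι → κ) (x y : W) (s : ℝ), x ∈ K c' → y ∈ K c' → 0 ≤ s → s ≤ 1 →
      x + s • (y - x) ∈ K c' := by
    intro c' x y s hx hy hs hs1
    have := (convex_convexHull ℝ (Set.range fun i => w i (c' i))) hx hy (sub_nonneg.2 hs1) hs
      (by ring)
    have e : (1 - s) • x + s • y = x + s • (y - x) := by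
      rw [smul_sub, sub_smul, one_smul]
      abel
    rw [e] at this
    exact this
  have hnn : ∀ x ∈ K c, ‖Y c‖ ^ 2 ≤ inner ℝ (Y c) x := by
    intro x hx
    by_contra hlt
    push Not at hlt
    have h1 : inner ℝ (Y c) (x - Y c) < 0 := by
      rw [inner_sub_right, real_inner_self_eq_norm_sq]
      linarith
    obtain ⟨s, hs0, hs1, hs2⟩ := col_car_aux _ _ h1
    exact absurd (hYmin c _ (hseg c _ _ s (hYK c) hx hs0 hs1)) (not_le.2 hs2)
  obtain ⟨i0, hi0⟩ := exists_unused (fun i => w i (c i)) (Y c) hy0 hcard (hYK c)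
    (fun i => hnn _ (hKmem c i))
  have hk : ∃ k, inner ℝ (Y c) (w i0 k) ≤ 0 := by
    by_contra hcon
    push Not at hcon
    have hconv : Convex ℝ {x : W | 0 < inner ℝ (Y c) x} :=
      convex_halfSpace_gt (f := fun x : W => inner ℝ (Y c) x)
        ⟨fun x y => inner_add_right _ _ _, fun r x => inner_smul_right _ _ _⟩ 0
    have hsub : convexHull ℝ (Set.range (w i0)) ⊆ {x : W | 0 < inner ℝ (Y c) x} := by
      apply convexHull_min _ hconv
      rintro _ ⟨k, rfl⟩
      exact hcon k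
    have := hsub (h0 i0)
    simp at this
  obtain ⟨k, hk⟩ := hk
  set c1 := Function.update c i0 k with hc1
  have hy1 : Y c ∈ K c1 := by
    apply convexHull_mono _ hi0
    rintro _ ⟨i, hi, rfl⟩
    refine ⟨i, ?_⟩
    have hi' : i ≠ i0 := hi
    simp only [hc1, Function.update_of_ne hi']
  have hw1 : w i0 k ∈ K c1 := by
    have := hKmem c1 i0
    rwa [hc1, Function.update_self] at this
  have h1 : inner ℝ (Y c) (w i0 k - Y c) < 0 := by
    rw [inner_sub_right, real_inner_self_eq_norm_sq]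
    have : 0 < ‖Y c‖ ^ 2 := by positivity
    linarith
  obtain ⟨s, hs0, hs1, hs2⟩ := col_car_aux _ _ h1
  have h2 := hYmin c1 _ (hseg c1 _ _ s hy1 hw1 hs0 hs1)
  have h3 := hc c1

  linarith

-- TARGET (prove this)
theorem col_car {W : Type*} [AddCommGroup W] [Module ℝ W]
    [FiniteDimensional ℝ W] {ι κ : Type*} [Fintype ι] [Finite κ] (w : ι → κ → W)
    (hcard : finrank ℝ W + 1 ≤ Fintype.card ι)
    (h0 : ∀ i, (0 : W) ∈ convexHull ℝ (Set.range (w i))) :
    ∃ c : ι → κ, (0 : W) ∈ convexHull ℝ (Set.range fun i => w i (c i)) := by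
  let e : W ≃ₗ[ℝ] EuclideanSpace ℝ (Fin (finrank ℝ W)) :=
    LinearEquiv.ofFinrankEq _ _ (by simp)
  obtain ⟨c, hc⟩ := col_car_inner (W := EuclideanSpace ℝ (Fin (finrank ℝ W)))
    (fun i k => e (w i k)) (by simpa using hcard) (by
      intro i
      have h1 : Set.range (fun k => e (w i k)) = e '' Set.range (w i) := by
        rw [← Set.range_comp]
        rfl
      rw [h1]
      have h2 := (e : W →ₗ[ℝ] EuclideanSpace ℝ (Fin (finrank ℝ W))).image_convexHull
        (Set.range (w i))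
      have h3 : (0 : EuclideanSpace ℝ (Fin (finrank ℝ W))) ∈
          (e : W →ₗ[ℝ] EuclideanSpace ℝ (Fin (finrank ℝ W))) '' convexHull ℝ (Set.range (w i)) :=
        ⟨0, h0 i, map_zero _⟩
      rw [h2] at h3
      exact h3)
  refine ⟨c, ?_⟩
  have h1 : Set.range (fun i => e (w i (c i))) = e '' Set.range (fun i => w i (c i)) := by
    rw [← Set.range_comp]
    rfl
  rw [h1] at hc
  have h2 := (e : W →ₗ[ℝ] EuclideanSpace ℝ (Fin (finrank ℝ W))).image_convexHull
    (Set.range (fun i => w i (c i)))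
  have h3 : (0 : EuclideanSpace ℝ (Fin (finrank ℝ W))) ∈
      (e : W →ₗ[ℝ] EuclideanSpace ℝ (Fin (finrank ℝ W))) ''
        convexHull ℝ (Set.range (fun i => w i (c i))) := by
    rw [h2]
    exact hc
  obtain ⟨x, hx, hx0⟩ := h3
  have hx1 : x = 0 := e.map_eq_zero_iff.mp hx0
  rwa [hx1] at hx

-- TARGET (prove this)
theorem sark {V : Type*} [AddCommGroup V] [Module ℝ V] [FiniteDimensional ℝ V]
    {ι : Type*} [Fintype ι] (M : ℕ) (hM : 1 ≤ M) (v : ι → V)
    (hcard : (M - 1) * finrank ℝ V + 1 ≤ Fintype.card ι) :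
    ∃ (c : ι → Fin M) (l : ι → ℝ) (z : V), (∀ i, 0 ≤ l i) ∧ (∑ i, l i = 1) ∧
      ∀ j : Fin M, ∑ i with c i = j, l i • v i = z := by
  classical
  let last : Fin M := ⟨M - 1, by omega⟩
  let cs : Fin (M - 1) → Fin M := fun k => ⟨k.val, by omega⟩
  let w : ι → Fin M → (Fin (M - 1) → V) := fun i j k =>
    ((if j = cs k then (1:ℝ) else 0) - (if j = last then 1 else 0)) • v i
  have hfin : finrank ℝ (Fin (M - 1) → V) = (M - 1) * finrank ℝ V := by
    rw [Module.finrank_pi_fintype]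
    simp
  have h0 : ∀ i, (0 : Fin (M - 1) → V) ∈ convexHull ℝ (Set.range (w i)) := by
    intro i
    have hM0 : (0:ℝ) < M := by exact_mod_cast hM
    have h1 := (convex_convexHull ℝ (Set.range (w i))).sum_mem (t := (Finset.univ : Finset (Fin M)))
      (w := fun _ => (1 / (M:ℝ))) (z := w i) (fun _ _ => by positivity)
      (by
        rw [Finset.sum_const, Finset.card_univ, Fintype.card_fin, nsmul_eq_mul]
        field_simp)
      (fun j _ => subset_convexHull ℝ _ ⟨j, rfl⟩)
    convert h1 using 1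
    funext k
    rw [Finset.sum_apply]
    show 0 = ∑ j, (1 / (M:ℝ)) • (((if j = cs k then (1:ℝ) else 0) - (if j = last then 1 else 0)) • v i)
    rw [← Finset.smul_sum, ← Finset.sum_smul, Finset.sum_sub_distrib]
    simp
  obtain ⟨c, hc⟩ := col_car w (by rw [hfin]; exact hcard) h0
  rw [convexHull_range_eq_exists_affineCombination] at hc
  obtain ⟨s, u, hu0, hu1, hu⟩ := hc
  rw [Finset.affineCombination_eq_linear_combination _ _ _ hu1] at hu
  refine ⟨c, fun i => if i ∈ s then u i else 0,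
    ∑ i with c i = last, (if i ∈ s then u i else 0) • v i, ?_, ?_, ?_⟩
  · intro i
    simp only []
    split_ifs with h
    · exact hu0 i h
    · exact le_rfl
  · rw [← hu1]
    simp
  · intro j
    by_cases hj : j.val = M - 1
    · have : j = last := Fin.ext hj
      rw [this]
    · have hjlt : j.val < M - 1 := by
        have := j.isLt
        omega
      have hk := congrFun hu ⟨j.val, hjlt⟩
      rw [Finset.sum_apply] at hk
      have e1 : ∀ i, (u i • w i (c i)) ⟨j.val, hjlt⟩ =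
          (if c i = j then u i • v i else 0) - (if c i = last then u i • v i else 0) := by
        intro i
        show u i • (((if c i = cs ⟨j.val, hjlt⟩ then (1:ℝ) else 0) - (if c i = last then 1 else 0)) • v i) = _
        have : cs ⟨j.val, hjlt⟩ = j := rfl
        rw [this]
        split_ifs <;> simp
      simp only [e1] at hk
      rw [Finset.sum_sub_distrib] at hk
      have e2 : ∀ j' : Fin M, ∑ i with c i = j', (if i ∈ s then u i else 0) • v i =
          ∑ i ∈ s, (if c i = j' then u i • v i else 0) := by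
        intro j'
        rw [Finset.sum_filter]
        have : ∀ i, (if c i = j' then (if i ∈ s then u i else 0) • v i else 0) =
            if i ∈ s then (if c i = j' then u i • v i else 0) else 0 := by
          intro i
          split_ifs <;> simp
        simp only [this]
        rw [Finset.sum_ite_mem, Finset.univ_inter]
      rw [e2, e2]
      exact sub_eq_zero.1 hk

-- TARGET (prove this)
theorem ray {d : ℕ} (M : ℕ) (hM : 1 ≤ M) (S : Finset (EuclideanSpace ℝ (Fin d)))
    (hS : (M - 1) * d + 2 ≤ S.card) :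
    ∃ (p z : EuclideanSpace ℝ (Fin d)) (c : EuclideanSpace ℝ (Fin d) → Fin M) (s : Fin M → ℝ),
      p ∈ S ∧ (∀ j, 0 < s j) ∧
        ∀ j, p + s j • z ∈ convexHull ℝ {x | x ∈ S ∧ x ≠ p ∧ c x = j} := by
  classical
  have hne : S.Nonempty := by
    rw [← Finset.card_pos]; omega
  obtain ⟨p, hp, hmax⟩ := S.exists_max_image (fun x => ‖x‖) hne
  have hin : ∀ x ∈ S, x ≠ p → inner ℝ p (x - p) < (0 : ℝ) := by
    intro x hx hxp
    have h1 : 0 < ‖x - p‖ ^ 2 := by
      have : 0 < ‖x - p‖ := norm_pos_iff.2 (sub_ne_zero.2 hxp)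
      positivity
    rw [@norm_sub_sq_real] at h1
    have h2 := hmax x hx
    have h3 : ‖x‖ ^ 2 ≤ ‖p‖ ^ 2 := pow_le_pow_left₀ (norm_nonneg _) h2 2
    rw [inner_sub_right, real_inner_self_eq_norm_sq, real_inner_comm]
    linarith
  have hcard : (M - 1) * finrank ℝ (EuclideanSpace ℝ (Fin d)) + 1 ≤
      Fintype.card {x // x ∈ S.erase p} := by
    rw [finrank_euclideanSpace_fin, Fintype.card_coe, Finset.card_erase_of_mem hp]
    omega
  obtain ⟨c', l, z, hl0, hl1, hz⟩ := sark M hM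
    (fun x : {x // x ∈ S.erase p} => (x : EuclideanSpace ℝ (Fin d)) - p) hcard
  have hsum : ∑ j : Fin M, ∑ i with c' i = j, l i * inner ℝ p ((i : EuclideanSpace ℝ (Fin d)) - p) =
      ∑ i, l i * inner ℝ p ((i : EuclideanSpace ℝ (Fin d)) - p) :=
    Finset.sum_fiberwise _ _ _
  have hzj : ∀ j : Fin M, ∑ i with c' i = j,
      l i * inner ℝ p ((i : EuclideanSpace ℝ (Fin d)) - p) = inner ℝ p z := by
    intro j
    rw [← hz j, inner_sum]
    refine Finset.sum_congr rfl (fun i _ => ?_)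
    rw [real_inner_smul_right]
  have hneg : ∑ i : {x // x ∈ S.erase p}, l i * inner ℝ p ((i : EuclideanSpace ℝ (Fin d)) - p) <
      (0 : ℝ) := by
    have hle : ∀ i : {x // x ∈ S.erase p},
        l i * inner ℝ p ((i : EuclideanSpace ℝ (Fin d)) - p) ≤ (0 : ℝ) := by
      intro i
      have := hin i (Finset.mem_of_mem_erase i.2) (Finset.ne_of_mem_erase i.2)
      exact mul_nonpos_of_nonneg_of_nonpos (hl0 i) this.le
    obtain ⟨i0, hi0⟩ : ∃ i0, 0 < l i0 := by
      by_contra hc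
      push Not at hc
      have : ∑ i, l i ≤ 0 := Finset.sum_nonpos (fun i _ => hc i)
      linarith
    have hlt : l i0 * inner ℝ p ((i0 : EuclideanSpace ℝ (Fin d)) - p) < (0 : ℝ) :=
      mul_neg_of_pos_of_neg hi0
        (hin i0 (Finset.mem_of_mem_erase i0.2) (Finset.ne_of_mem_erase i0.2))
    calc _ < ∑ i : {x // x ∈ S.erase p}, (0 : ℝ) :=
          Finset.sum_lt_sum (fun i _ => hle i) ⟨i0, Finset.mem_univ _, hlt⟩
      _ = 0 := by simp
  have hz0 : z ≠ 0 := by
    intro h0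
    rw [← hsum] at hneg
    simp only [hzj, h0, inner_zero_right] at hneg
    simp at hneg
  have hm : ∀ j : Fin M, 0 < ∑ i with c' i = j, l i := by
    intro j
    by_contra hc
    have h1 : ∑ i with c' i = j, l i = 0 :=
      le_antisymm (not_lt.1 hc) (Finset.sum_nonneg (fun i _ => hl0 i))
    have h2 := (Finset.sum_eq_zero_iff_of_nonneg (fun i _ => hl0 i)).1 h1
    apply hz0
    rw [← hz j]
    apply Finset.sum_eq_zero
    intro i hi
    rw [h2 i hi, zero_smul]
  refine ⟨p, z, fun x => if h : x ∈ S.erase p then c' ⟨x, h⟩ else ⟨0, hM⟩,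
    fun j => (∑ i with c' i = j, l i)⁻¹, hp, fun j => inv_pos.2 (hm j), ?_⟩
  intro j
  have h1 := Finset.centerMass_mem_convexHull (R := ℝ) (s := {x | x ∈ S ∧ x ≠ p ∧
      (if h : x ∈ S.erase p then c' ⟨x, h⟩ else ⟨0, hM⟩) = j})
    (Finset.univ.filter (fun i => c' i = j)) (w := l)
    (z := fun i : {x // x ∈ S.erase p} => (i : EuclideanSpace ℝ (Fin d)))
    (fun i _ => hl0 i) (hm j)
    (by
      intro i hi
      refine ⟨Finset.mem_of_mem_erase i.2, Finset.ne_of_mem_erase i.2, ?_⟩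
      rw [dif_pos i.2]
      exact (Finset.mem_filter.1 hi).2)
  convert h1 using 1
  unfold Finset.centerMass
  have h2 : ∑ i with c' i = j, l i • ((i : EuclideanSpace ℝ (Fin d)) - p) =
      ∑ i with c' i = j, l i • (i : EuclideanSpace ℝ (Fin d)) - (∑ i with c' i = j, l i) • p := by
    rw [Finset.sum_smul, ← Finset.sum_sub_distrib]
    refine Finset.sum_congr rfl (fun i _ => ?_)
    rw [smul_sub]
  have h3 : ∑ i with c' i = j, l i • (i : EuclideanSpace ℝ (Fin d)) =
      z + (∑ i with c' i = j, l i) • p := by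
    rw [← hz j, h2, sub_add_cancel]
  rw [h3, smul_add, smul_smul, inv_mul_cancel₀ (hm j).ne', one_smul, add_comm]

-- TARGET (prove this)
theorem ray_sorted {d : ℕ} (M : ℕ) (hM : 1 ≤ M) (S : Finset (EuclideanSpace ℝ (Fin d)))
    (hS : (M - 1) * d + 2 ≤ S.card) :
    ∃ (p z : EuclideanSpace ℝ (Fin d)) (c : EuclideanSpace ℝ (Fin d) → Fin M) (s : Fin M → ℝ),
      p ∈ S ∧ Monotone s ∧ (∀ j, 0 < s j) ∧
        ∀ j, p + s j • z ∈ convexHull ℝ {x | x ∈ S ∧ x ≠ p ∧ c x = j} := by
  obtain ⟨p, z, c, s, hp, hs, h⟩ := ray M hM S hS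
  refine ⟨p, z, fun x => (Tuple.sort s).symm (c x), s ∘ Tuple.sort s, hp,
    Tuple.monotone_sort s, fun j => hs _, fun j => ?_⟩
  have h1 := h (Tuple.sort s j)
  have h2 : {x | x ∈ S ∧ x ≠ p ∧ (Tuple.sort s).symm (c x) = j} =
      {x | x ∈ S ∧ x ≠ p ∧ c x = Tuple.sort s j} := by
    ext x
    simp only [Set.mem_ofPred_eq, Equiv.symm_apply_eq]
  rw [h2]
  exact h1

-- TARGET (prove this)
theorem good_of_ray {d m t : ℕ} (ht : 1 ≤ t) (htm : t < m)
    (S : Finset (EuclideanSpace ℝ (Fin d))) (p z : EuclideanSpace ℝ (Fin d))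
    (c : EuclideanSpace ℝ (Fin d) → Fin (m + t - 1)) (s : Fin (m + t - 1) → ℝ)
    (hp : p ∈ S) (hs : Monotone s) (hpos : ∀ j, 0 < s j)
    (h : ∀ j, p + s j • z ∈ convexHull ℝ {x | x ∈ S ∧ x ≠ p ∧ c x = j}) :
    TGood S m t := by
  classical
  have hm : 0 < m := by omega
  obtain ⟨f, hf⟩ : ∃ f : Fin (m + t - 1) → Fin m, ∀ k, f k =
      if hk : k.val < m then ⟨k.val, hk⟩ else ⟨m + t - 2 - k.val, by have := k.2; omega⟩ :=
    ⟨_, fun _ => rfl⟩
  obtain ⟨l, hl⟩ : ∃ l : Fin m, l.val = m - 1 := ⟨⟨m - 1, by omega⟩, rfl⟩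
  obtain ⟨c1, hc1⟩ : ∃ c1 : EuclideanSpace ℝ (Fin d) → Fin m, ∀ x, c1 x =
      if x = p then l else f (c x) := ⟨_, fun _ => rfl⟩
  have hq : ∀ j, p + s j • z ∈ convexHull ℝ {x : EuclideanSpace ℝ (Fin d) | x ∈ S ∧ c1 x = f j} := by
    intro j
    refine convexHull_mono ?_ (h j)
    rintro x ⟨hx, hxp, hcx⟩
    refine ⟨hx, ?_⟩
    rw [hc1, if_neg hxp, hcx]
  have hseg : ∀ (C : Set (EuclideanSpace ℝ (Fin d))), Convex ℝ C → ∀ a b e : ℝ, a ≤ b → b ≤ e →
      p + a • z ∈ C → p + e • z ∈ C → p + b • z ∈ C := by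
    intro C hC a b e hab hbe ha he
    have h1 := (hC.affine_preimage (AffineMap.lineMap p (p + z) :
      ℝ →ᵃ[ℝ] EuclideanSpace ℝ (Fin d))).ordConnected
    have h2 : ∀ r : ℝ, (AffineMap.lineMap p (p + z) : ℝ →ᵃ[ℝ] EuclideanSpace ℝ (Fin d)) r =
        p + r • z := by
      intro r
      rw [AffineMap.lineMap_apply]
      simp [add_comm]
    have h3 := h1.out (x := a) (y := e) (by rw [Set.mem_preimage, h2]; exact ha)
      (by rw [Set.mem_preimage, h2]; exact he) ⟨hab, hbe⟩
    rw [Set.mem_preimage, h2] at h3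
    exact h3
  -- value in the low class
  have hlow : ∀ (i : Fin m), i.val < t - 1 → ∀ (r : Fin (m + t - 1)), i.val ≤ r.val → r.val < m →
      p + s r • z ∈ convexHull ℝ {x : EuclideanSpace ℝ (Fin d) | x ∈ S ∧ c1 x = i} := by
    intro i hi r hir hrm
    have e1 : (⟨i.val, by omega⟩ : Fin (m + t - 1)) ≤ r := hir
    have e2 : r ≤ (⟨m + t - 2 - i.val, by omega⟩ : Fin (m + t - 1)) := by
      rw [Fin.le_def]; show r.val ≤ m + t - 2 - i.val; omega
    refine hseg _ (convex_convexHull ℝ _) _ _ _ (hs e1) (hs e2) ?_ ?_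
    · have := hq ⟨i.val, by omega⟩
      rwa [hf, dif_pos i.2] at this
    · have := hq ⟨m + t - 2 - i.val, by omega⟩
      rw [hf, dif_neg (by show ¬ (m + t - 2 - i.val < m); omega)] at this
      have e3 : (⟨m + t - 2 - (m + t - 2 - i.val), by omega⟩ : Fin m) = i := by
        apply Fin.ext
        show m + t - 2 - (m + t - 2 - i.val) = i.val
        omega
      rwa [e3] at this
  have hlast : ∀ (r : Fin (m + t - 1)), r.val < m →
      p + s r • z ∈ convexHull ℝ {x : EuclideanSpace ℝ (Fin d) | x ∈ S ∧ c1 x = l} := by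
    intro r hr
    have e2 : r ≤ (⟨m - 1, by omega⟩ : Fin (m + t - 1)) := by
      rw [Fin.le_def]; show r.val ≤ m - 1; omega
    refine hseg _ (convex_convexHull ℝ _) 0 _ _ (hpos r).le (hs e2) ?_ ?_
    · rw [zero_smul, add_zero]
      refine subset_convexHull ℝ _ ⟨hp, ?_⟩
      rw [hc1, if_pos rfl]
    · have := hq ⟨m - 1, by omega⟩
      rw [hf, dif_pos (by show m - 1 < m; omega)] at this
      have e3 : (⟨m - 1, by omega⟩ : Fin m) = l := Fin.ext hl.symm
      rwa [e3] at this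
  have hown : ∀ (j : Fin m), p + s ⟨j.val, by omega⟩ • z ∈
      convexHull ℝ {x : EuclideanSpace ℝ (Fin d) | x ∈ S ∧ c1 x = j} := by
    intro j
    have := hq ⟨j.val, by omega⟩
    rwa [hf, dif_pos j.2] at this
  refine ⟨c1, insert l (Finset.univ.map (Fin.castLEEmb (show t - 1 ≤ m by omega))), ?_, ?_⟩
  · rw [Finset.card_insert_of_notMem, Finset.card_map, Finset.card_univ, Fintype.card_fin]
    · omega
    · rw [Finset.mem_map]
      rintro ⟨a, -, ha⟩
      have := congrArg Fin.val ha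
      simp only [Fin.castLEEmb_apply, Fin.val_castLE, hl] at this
      have := a.2
      omega
  · intro i hi j
    rw [Finset.mem_insert, Finset.mem_map] at hi
    rcases hi with rfl | ⟨a, -, ha⟩
    · exact ⟨_, hlast ⟨j.val, by omega⟩ j.2, hown j⟩
    · have hi : i.val < t - 1 := by
        rw [← ha]; simp only [Fin.castLEEmb_apply, Fin.val_castLE]; exact a.2
      rcases le_or_gt i.val j.val with hij | hij
      · exact ⟨_, hlow i hi ⟨j.val, by omega⟩ hij j.2, hown j⟩
      · exact ⟨_, hown i, hlow j (by omega) ⟨i.val, by omega⟩ hij.le i.2⟩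

-- TARGET (prove this)
theorem tverberg {d : ℕ} (m : ℕ) (hm : 1 ≤ m) (S : Finset (EuclideanSpace ℝ (Fin d)))
    (hS : (m - 1) * (d + 1) + 1 ≤ S.card) :
    ∃ (c : EuclideanSpace ℝ (Fin d) → Fin m) (q : EuclideanSpace ℝ (Fin d)),
      ∀ j, q ∈ convexHull ℝ {x | x ∈ S ∧ c x = j} := by
  classical
  set ι := {x : EuclideanSpace ℝ (Fin d) // x ∈ S} with hι
  have hfr : finrank ℝ (EuclideanSpace ℝ (Fin d) × ℝ) = d + 1 := by
    rw [Module.finrank_prod, finrank_euclideanSpace_fin, Module.finrank_self]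
  have hcard : (m - 1) * finrank ℝ (EuclideanSpace ℝ (Fin d) × ℝ) + 1 ≤ Fintype.card ι := by
    rw [hfr, Fintype.card_coe]; exact hS
  obtain ⟨c, l, z, hl0, hl1, hz⟩ := sark (V := EuclideanSpace ℝ (Fin d) × ℝ) m hm
    (fun x : ι => ((x.1, (1 : ℝ)) : EuclideanSpace ℝ (Fin d) × ℝ)) hcard
  have hz1 : ∀ j : Fin m, ∑ i with c i = j, l i • (i.1 : EuclideanSpace ℝ (Fin d)) = z.1 := by
    intro j
    have := congrArg Prod.fst (hz j)
    rw [Prod.fst_sum] at this
    exact this
  have hz2 : ∀ j : Fin m, ∑ i with c i = j, l i = z.2 := by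
    intro j
    have := congrArg Prod.snd (hz j)
    rw [Prod.snd_sum] at this
    simpa using this
  have htot : (m : ℝ) * z.2 = 1 := by
    have h1 : ∑ j : Fin m, ∑ i with c i = j, l i = ∑ i, l i :=
      Finset.sum_fiberwise_of_maps_to (fun i _ => Finset.mem_univ (c i)) l
    rw [hl1] at h1
    rw [← h1, Finset.sum_congr rfl (fun j _ => hz2 j)]
    simp
  have hmpos : (0 : ℝ) < m := by exact_mod_cast hm
  have hμ : 0 < z.2 := by
    by_contra hcon
    push Not at hcon
    have := mul_nonpos_of_nonneg_of_nonpos hmpos.le hcon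
    linarith
  refine ⟨fun x => if h : x ∈ S then c ⟨x, h⟩ else ⟨0, hm⟩, z.2⁻¹ • z.1, fun j => ?_⟩
  have hq : z.2⁻¹ • z.1 = ∑ i with c i = j, (z.2⁻¹ * l i) • (i.1 : EuclideanSpace ℝ (Fin d)) := by
    rw [← hz1 j, Finset.smul_sum]
    refine Finset.sum_congr rfl fun i _ => ?_
    rw [smul_smul]
  rw [hq]
  refine (convex_convexHull ℝ _).sum_mem (fun i _ => mul_nonneg (inv_nonneg.mpr hμ.le) (hl0 i)) ?_ ?_
  · rw [← Finset.mul_sum, hz2 j, inv_mul_cancel₀ hμ.ne']
  · intro i hi
    apply subset_convexHull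
    rw [Finset.mem_filter] at hi
    refine ⟨i.2, ?_⟩
    show (if h : (i.1 : EuclideanSpace ℝ (Fin d)) ∈ S then c ⟨i.1, h⟩ else ⟨0, hm⟩) = j
    rw [dif_pos i.2]
    exact hi.2

-- TARGET (prove this)
theorem tverberg_good (d m t : ℕ) (ht : 1 ≤ t) (htm : t < m)
    (S : Finset (EuclideanSpace ℝ (Fin d))) (hS : (m - 1) * (d + 1) + 1 ≤ S.card) :
    TGood S m t := by
  obtain ⟨c, q, hq⟩ := tverberg m (by omega) S hS
  obtain ⟨T, _, hT⟩ := Finset.exists_subset_card_eq
    (show t ≤ (Finset.univ : Finset (Fin m)).card by rw [Finset.card_fin]; omega)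
  exact ⟨c, T, hT, fun i _ j => ⟨q, hq i, hq j⟩⟩

-- TARGET (prove this)
theorem main_bound (d m t : ℕ) (ht : 1 ≤ t) (htm : t < m)
    (S : Finset (EuclideanSpace ℝ (Fin d))) (hS : (m + t - 2) * d + 2 ≤ S.card) :
    TGood S m t := by
  have hM : 1 ≤ m + t - 1 := by omega
  have hS' : (m + t - 1 - 1) * d + 2 ≤ S.card := by
    have e : m + t - 1 - 1 = m + t - 2 := by omega
    rw [e]
    exact hS
  obtain ⟨p, z, c, s, hp, hs, hpos, h⟩ := ray_sorted (m + t - 1) hM S hS'
  exact good_of_ray ht htm S p z c s hp hs hpos h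


-- TARGET (prove this)
theorem birch_cases (d m t : ℕ) (ht : 1 ≤ t) (htm : t < m)
    (h : t = 1 ∨ t = m - 1 ∨ m ≤ 3 ∨ d ≤ 1)
    (S : Finset (EuclideanSpace ℝ (Fin d))) (hS : S.card = (m - 1) * d + t + 1) :
    TGood S m t := by
  have key1 : t = 1 → TGood S m t := by
    intro h1
    apply main_bound d m t ht htm S
    have e : m + t - 2 = m - 1 := by omega
    rw [e, hS, h1]
  have key2 : t = m - 1 → TGood S m t := by
    intro h2
    apply tverberg_good d m t ht htm S
    rw [hS, mul_add, mul_one]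
    omega
  rcases h with h | h | h | h
  · exact key1 h
  · exact key2 h
  · have : t = 1 ∨ t = m - 1 := by omega
    rcases this with h1 | h2
    · exact key1 h1
    · exact key2 h2
  · have hd : d = 0 ∨ d = 1 := by omega
    rcases hd with hd | hd
    · subst hd
      exfalso
      have h1 : S.card ≤ 1 := Finset.card_le_one_of_subsingleton S
      rw [hS] at h1
      omega
    · apply main_bound d m t ht htm S
      rw [hS, hd]
      omega

end Pool.Agent.Helper873.Birch
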